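import Pool.Agent.BEG.Stmts
import Pool.Agent.Helper70_BE01.Fnl
import Pool.Agent.Helper70_BE01.Scl

/-!
# Squad BEG, row FNX: the explicit form for a subspace
-/

set_option autoImplicit false

namespace Pool.Agent.BEG.H19

open Pool.Agent.BE01 Pool.Agent.BEH Pool.Agent.BEG Pool.Agent.Helper70BE01Fnl
  Pool.Agent.Helper70BE01Scl
open Set Filter Topology MeasureTheory
open scoped InnerProductSpace ENNReal

theorem fnx (WVK : WvkStmt) (FRE : Pool.Agent.BE01.FreStmt) (SCL : SclStmt) : FnxStmt := by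
  intro d Ω L p K a l B φ' hd hDom hL hp ha hφL hφ0 hEig0 hsimple0 hB hK0 hnr0
  obtain ⟨X, iX1, iX2, iX3, Y, A, W, Z, hYc, hle, hconv, hmul, hone, hcomp, hH10, hZ, hZψ, hEigS⟩ :=
    WVK d Ω L hd hDom hL
  have : CompleteSpace L := hL.closed.completeSpace_coe
  have : CompleteSpace Y := hYc.completeSpace_coe
  obtain ⟨φ, hφv⟩ : ∃ φ : L, (φ : Lp ℝ 2 (mu Ω)) = φ' := ⟨⟨φ', hφL⟩, rfl⟩
  subst hφv
  have hφ : φ ≠ 0 := fun h => hφ0 (by rw [h]; rfl)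
  have hφS : φ = l • W.S φ := (hEigS l φ).1 hEig0
  have hsymm : ∀ h k, ⟪W.S h, k⟫_ℝ = ⟪h, W.S k⟫_ℝ := by
    intro h k
    rw [← W.prp.RR h, ← W.prp.RR k, W.prp.R_symm, W.prp.R_symm]
  have hφn : 0 < ‖φ‖ := norm_pos_iff.2 hφ
  have hl : 0 < l := by
    have h1 : ‖φ‖ ^ 2 = l * ‖Z φ‖ ^ 2 := by
      rw [hZ, ← real_inner_smul_right, ← hφS, real_inner_self_eq_norm_sq]
    have h2 : 0 < l * ‖Z φ‖ ^ 2 := by rw [← h1]; positivity
    by_contra hneg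
    have : l * ‖Z φ‖ ^ 2 ≤ 0 := mul_nonpos_of_nonpos_of_nonneg (not_lt.1 hneg) (sq_nonneg _)
    linarith
  obtain ⟨ω, hωdef⟩ : ∃ ω, ω = Real.sqrt l := ⟨_, rfl⟩
  have hω : 0 < ω := by rw [hωdef]; exact Real.sqrt_pos.2 hl
  have hω2 : ω ^ 2 = l := by rw [hωdef]; exact Real.sq_sqrt hl.le
  have hSφ : (ω ^ 2) • W.S φ = φ := by rw [hω2]; exact hφS.symm
  have hex : A.e (W.SX ((ω ^ 2) • φ)) = φ := by
    rw [W.e_SX, map_smul, hSφ]
  obtain ⟨x0, hx0⟩ : ∃ x0, x0 = W.SX ((ω ^ 2) • φ) := ⟨_, rfl⟩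
  rw [← hx0] at hex
  have hpow : ∀ (x : X) (n : ℕ), ((A.e (x ^ n) : L) : Lp ℝ 2 (mu Ω)) =ᵐ[mu Ω]
      fun z => ((A.e x : L) : Lp ℝ 2 (mu Ω)) z ^ n := by
    intro x n
    induction n with
    | zero =>
      rw [pow_zero]
      filter_upwards [hone] with z hz
      rw [hz, pow_zero]
    | succ n ih =>
      rw [pow_succ]
      filter_upwards [ih, hmul (x ^ n) x] with z h1 h2
      rw [h2, h1, pow_succ]
  have hin : ∀ u v : L, ⟪u, v⟫_ℝ = ∫ z, ⟪(u : Lp ℝ 2 (mu Ω)) z, (v : Lp ℝ 2 (mu Ω)) z⟫_ℝ ∂(mu Ω) := by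
    intro u v
    rw [← L2.inner_def]
    rfl
  have hptw : ∀ᵐ z ∂(mu Ω), ⟪((A.e (x0 ^ (2 * p + 1)) : L) : Lp ℝ 2 (mu Ω)) z,
      (φ : Lp ℝ 2 (mu Ω)) z⟫_ℝ = (φ : Lp ℝ 2 (mu Ω)) z ^ (2 * p + 2) := by
    filter_upwards [hpow x0 (2 * p + 1)] with z hz
    rw [hz, hex]
    simp only [RCLike.inner_apply, conj_trivial]
    ring
  have hI2 : ⟪A.e (x0 ^ (2 * p + 1)), φ⟫_ℝ = ∫ x, (φ : Lp ℝ 2 (mu Ω)) x ^ (2 * p + 2) ∂(mu Ω) := by
    rw [hin]
    exact integral_congr_ae hptw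
  have hγ : 0 < ⟪A.e (x0 ^ (2 * p + 1)), φ⟫_ℝ := by
    rw [hI2]
    have hnn : 0 ≤ᵐ[mu Ω] fun z => (φ : Lp ℝ 2 (mu Ω)) z ^ (2 * p + 2) := by
      refine Eventually.of_forall fun z => ?_
      have e : 2 * p + 2 = 2 * (p + 1) := by ring
      simp only [Pi.zero_apply]
      rw [e, pow_mul]
      positivity
    have hint : Integrable (fun z => (φ : Lp ℝ 2 (mu Ω)) z ^ (2 * p + 2)) (mu Ω) := by
      refine (L2.integrable_inner (𝕜 := ℝ) ((A.e (x0 ^ (2 * p + 1)) : L) : Lp ℝ 2 (mu Ω))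
        (φ : Lp ℝ 2 (mu Ω))).congr hptw
    refine lt_of_le_of_ne (integral_nonneg_of_ae hnn) (fun h0 => hφ0 ?_)
    have h2 := (integral_eq_zero_iff_of_nonneg_ae hnn hint).1 h0.symm
    rw [Lp.eq_zero_iff_ae_eq_zero]
    filter_upwards [h2] with z hz2
    simp only [Pi.zero_apply] at hz2 ⊢
    exact pow_eq_zero_iff (by omega) |>.1 hz2
  have hI1 : ⟪φ, φ⟫_ℝ = ∫ x, (φ : Lp ℝ 2 (mu Ω)) x ^ 2 ∂(mu Ω) := by
    rw [hin]
    refine integral_congr_ae (Eventually.of_forall fun x => ?_)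
    simp only [real_inner_self_eq_norm_sq, Real.norm_eq_abs, sq_abs]
  have hI1p : 0 < ⟪φ, φ⟫_ℝ := real_inner_self_pos.2 hφ
  have hB0 : 0 ≤ B := by
    by_contra hneg
    refine hφ0 ?_
    rw [Lp.eq_zero_iff_ae_eq_zero]
    filter_upwards [hB] with z hz
    exact absurd ((abs_nonneg _).trans hz) hneg
  have hnB : ‖x0‖ ≤ B := by
    refine hconv x0 B hB0 ?_
    rw [hex]
    exact hB
  have hkap : (2 * p + 1) * ‖x0‖ ^ (2 * p) <
      K * (p * cp p * (⟪A.e (x0 ^ (2 * p + 1)), φ⟫_ℝ / ⟪φ, φ⟫_ℝ)) := by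
    have h1 : (2 * p + 1) * ‖x0‖ ^ (2 * p) ≤ (2 * p + 1) * B ^ (2 * p) := by gcongr
    refine lt_of_le_of_lt h1 ?_
    rw [← hI1, ← hI2] at hK0
    have h2 : K * (p * cp p * (⟪A.e (x0 ^ (2 * p + 1)), φ⟫_ℝ / ⟪φ, φ⟫_ℝ)) =
        K * (p * cp p * ⟪A.e (x0 ^ (2 * p + 1)), φ⟫_ℝ) / ⟪φ, φ⟫_ℝ := by
      ring
    rw [h2, lt_div_iff₀ hI1p]
    exact hK0
  have hK1 : 1 ≤ K := by
    rcases Nat.eq_zero_or_pos K with h0 | h0
    · exfalso
      rw [h0, Nat.cast_zero, zero_mul] at hkap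
      have : 0 ≤ (2 * p + 1) * ‖x0‖ ^ (2 * p) := by positivity
      linarith
    · exact h0
  have hslv : Slv W.S ω φ (1 + 2 * p * K) := by
    refine ⟨?_, ?_⟩
    · rw [hω2]
      refine (FRE _ W.S l hcomp hsymm).2 φ hφ hφS (fun u hu => ?_)
      obtain ⟨c, hc⟩ := hsimple0 u u.2 ((hEigS l u).2 hu)
      exact ⟨c, Subtype.ext hc⟩
    · intro n hn h3 hM
      rw [hω2]
      refine (FRE _ W.S ((n : ℝ) ^ 2 * l) hcomp hsymm).1 (fun u hu => ?_)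
      exact Subtype.ext (hnr0 n hn h3 hM u u.2 ((hEigS _ u).2 hu))
  rw [hx0] at hγ hkap
  obtain ⟨t0, c, C, u, x, k, w, h, ht0, hc, hwc, hhc, H⟩ :=
    SCL X Y L A W p a ω φ K hp ha hω hφ hSφ hγ hK1 hkap hslv
  have hs : ∀ t : ℝ, 0 ≤ t → t0 < t + (t0 + 1) := fun t ht => by linarith
  refine ⟨fun t => ((u (t + (t0 + 1)) : L) : Lp ℝ 2 (mu Ω)),
    fun t => ((A.e (x (t + (t0 + 1))) : L) : Lp ℝ 2 (mu Ω)),
    fun t => ((w (t + (t0 + 1)) : L) : Lp ℝ 2 (mu Ω)),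
    fun t => Z (h (t + (t0 + 1))), ?_, ?_⟩
  · refine ⟨?_, ?_, ?_, ?_, ?_, ?_, ?_, ?_⟩
    · intro t ht
      obtain ⟨-, -, -, hu, -, -, -⟩ := H _ (hs t ht)
      show (((u (t + (t0 + 1)) : L) : Lp ℝ 2 (mu Ω)), Z (h (t + (t0 + 1)))) ∈ H10 Ω
      rw [hu]
      exact hH10 _
    · intro t ht
      obtain ⟨-, -, hx, -, -, -, -⟩ := H _ (hs t ht)
      refine ⟨Z (k (t + (t0 + 1))), ?_⟩
      show (((A.e (x (t + (t0 + 1))) : L) : Lp ℝ 2 (mu Ω)), Z (k (t + (t0 + 1)))) ∈ H10 Ω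
      rw [hx, W.e_SX]
      exact hH10 _
    · intro t ht
      obtain ⟨hu, -, -, -, -, -, -⟩ := H _ (hs t ht)
      exact (L.subtypeL.hasFDerivAt.comp_hasDerivAt _ (hu.comp_add_const t (t0 + 1)))
    · intro t ht
      obtain ⟨-, hv, -, -, -, -, -⟩ := H _ (hs t ht)
      exact (L.subtypeL.hasFDerivAt.comp_hasDerivAt _ (hv.comp_add_const t (t0 + 1)))
    · refine Z.continuous.comp_continuousOn (hhc.comp (by fun_prop) ?_)
      intro t ht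
      exact hs t ht
    · refine L.subtypeL.continuous.comp_continuousOn (hwc.comp (by fun_prop) ?_)
      intro t ht
      exact hs t ht
    · intro t ht
      refine ⟨‖x (t + (t0 + 1))‖, ?_⟩
      exact hle _
    · intro t ht ψ hψ
      obtain ⟨-, -, -, -, heq0, -, -⟩ := H _ (hs t ht)
      obtain ⟨s, hsdef⟩ : ∃ s, s = t + (t0 + 1) := ⟨_, rfl⟩
      simp only [← hsdef] at heq0 ⊢
      obtain ⟨ws, hws⟩ : ∃ ws : Lp ℝ 2 (mu Ω), ws = (w s : Lp ℝ 2 (mu Ω)) := ⟨_, rfl⟩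
      obtain ⟨hhs, hhs'⟩ : ∃ hhs : Lp ℝ 2 (mu Ω), hhs = (h s : Lp ℝ 2 (mu Ω)) := ⟨_, rfl⟩
      obtain ⟨es, hes⟩ : ∃ es : Lp ℝ 2 (mu Ω),
        es = ((A.e (x s ^ (2 * p + 1)) : L) : Lp ℝ 2 (mu Ω)) := ⟨_, rfl⟩
      obtain ⟨vs, hvs⟩ : ∃ vs : Lp ℝ 2 (mu Ω), vs = ((A.e (x s) : L) : Lp ℝ 2 (mu Ω)) := ⟨_, rfl⟩
      have heq : ws + hhs + a • es = 0 := by
        have h1 := congrArg (fun v : L => (v : Lp ℝ 2 (mu Ω))) heq0
        rw [hws, hhs', hes]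
        simpa using h1
      have hps : es =ᵐ[mu Ω] fun z => vs z ^ (2 * p + 1) := by
        rw [hes, hvs]
        exact hpow (x s) (2 * p + 1)
      rw [← hws, ← hvs]
      have h1 : ∀ᵐ z ∂(mu Ω), a * |vs z| ^ ((2 * p : ℕ) : ℝ) * vs z * ψ z =
          a * (es z * ψ z) := by
        filter_upwards [hps] with z hz
        rw [hz, Real.rpow_natCast, pow_mul, sq_abs, ← pow_mul]
        ring
      have h2 : ∀ᵐ z ∂(mu Ω), ws z * ψ z + hhs z * ψ z + a * (es z * ψ z) = 0 := by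
        have h3 : (ws + hhs + a • es : Lp ℝ 2 (mu Ω)) =ᵐ[mu Ω] 0 := by
          rw [heq]
          exact Lp.coeFn_zero _ _ _
        filter_upwards [h3, Lp.coeFn_add (ws + hhs) (a • es),
          Lp.coeFn_add ws hhs, Lp.coeFn_smul a es] with z h4 h5 h6 h7
        rw [h5] at h4
        simp only [Pi.add_apply, Pi.zero_apply] at h4
        rw [h6, h7] at h4
        simp only [Pi.add_apply, Pi.smul_apply, smul_eq_mul] at h4
        have h8 := congrArg (fun r => r * ψ z) h4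
        simp only [zero_mul] at h8
        linarith
      have i1 := int_mul ws hψ
      have i2 := int_mul hhs hψ
      have i3 := int_inner (Z (h s)) hψ
      have i4 := (int_mul es hψ).const_mul a
      have e1 : ∫ z, ws z * ψ z + ⟪Z (h s) z, gradient ψ z⟫_ℝ +
          a * |vs z| ^ ((2 * p : ℕ) : ℝ) * vs z * ψ z ∂(mu Ω) =
          ∫ z, (ws z * ψ z + ⟪Z (h s) z, gradient ψ z⟫_ℝ) +
            a * (es z * ψ z) ∂(mu Ω) := by
        refine integral_congr_ae ?_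
        filter_upwards [h1] with z hz
        rw [hz]
      have e2 : ∫ z, (ws z * ψ z + hhs z * ψ z) + a * (es z * ψ z) ∂(mu Ω) = 0 := by
        rw [integral_congr_ae (g := fun _ => (0 : ℝ)) h2]
        simp
      rw [int3 i1 i2 i4] at e2
      have e3 := hZψ (h s) ψ hψ
      rw [← hhs'] at e3
      rw [e1, int3 i1 i3 i4, e3]
      exact e2
  · have hexp : (-(2 / ((2 * p : ℕ) : ℝ))) = -(1 / (p : ℝ)) := by
      have : (p : ℝ) ≠ 0 := by positivity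
      push_cast
      field_simp
    have hC : 0 < C := by
      obtain ⟨-, -, -, -, -, h1, h2⟩ := H (t0 + 1) (by linarith)
      have h3 : 0 < (t0 + 1) ^ (-(1 / (p : ℝ))) := Real.rpow_pos_of_pos (by linarith) _
      have h4 : c * (t0 + 1) ^ (-(1 / (p : ℝ))) ≤ C * (t0 + 1) ^ (-(1 / (p : ℝ))) := h1.trans h2
      have h5 := le_of_mul_le_mul_right h4 h3
      linarith
    refine ⟨c * (t0 + 1) ^ (-(1 / (p : ℝ))), C, mul_pos hc (Real.rpow_pos_of_pos (by linarith) _),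
      fun t ht => ?_⟩
    obtain ⟨-, -, -, -, -, h1, h2⟩ := H _ (hs t ht)
    rw [hexp, energy_eq]
    show _ ≤ ‖A.e (x (t + (t0 + 1)))‖ ^ 2 + ‖Z (h (t + (t0 + 1)))‖ ^ 2 ∧
      ‖A.e (x (t + (t0 + 1)))‖ ^ 2 + ‖Z (h (t + (t0 + 1)))‖ ^ 2 ≤ _
    rw [hZ]
    have hneg : -(1 / (p : ℝ)) ≤ 0 := by
      have : 0 ≤ 1 / (p : ℝ) := by positivity
      linarith
    constructor
    · refine le_trans ?_ h1
      rw [mul_assoc, ← Real.mul_rpow (by linarith) (by linarith)]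
      refine mul_le_mul_of_nonneg_left ?_ hc.le
      refine Real.rpow_le_rpow_of_nonpos (by linarith) ?_ hneg
      nlinarith
    · refine h2.trans ?_
      refine mul_le_mul_of_nonneg_left ?_ hC.le
      exact Real.rpow_le_rpow_of_nonpos (by linarith) (by linarith) hneg

end Pool.Agent.BEG.H19
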