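import Pool.Agent.BEG.Stmts

/-!
# Squad BEG, row SLK: the eigenspace in `K` and solvability in `X'`
-/

set_option autoImplicit false

namespace Pool.Agent.BEG.H19

open Set Filter Topology MeasureTheory
open scoped InnerProductSpace ENNReal
open Pool.Agent.BE01 Pool.Agent.BEF Pool.Agent.BEN Pool.Agent.BEG

theorem slk (h1 : Pool.Agent.BEN.BtsStmt) (h2 : Pool.Agent.BEF.FrmStmt)
    (h3 : Pool.Agent.BE01.FreStmt) : SlkStmt := by
  intro T _ μ _ s C0 ω X X' _ _ _ _ W W' i K hs hX hb hc hω hK hSK hR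
  have hsym : ∀ h k : Lp ℝ 2 μ, ⟪W.S h, k⟫_ℝ = ⟪h, W.S k⟫_ℝ := by
    intro h k
    rw [← W.prp.RR h, ← W.prp.RR k, W.prp.R_symm, W.prp.R_symm]
  have hbts := h1 T μ s C0 X W hs hX hb
  have : CompleteSpace K := hK.completeSpace_coe
  -- the restriction of `S` to `K`
  let SK : K →L[ℝ] K := (W.S.comp K.subtypeL).codRestrict K fun h => hSK h h.2
  have hSKv : ∀ h : K, ((SK h : K) : Lp ℝ 2 μ) = W.S h := fun h => rfl
  have hcK : IsCompactOperator SK :=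
    (hc.comp_clm K.subtypeL).codRestrict (fun h => hSK h h.2) hK
  have hsymK : ∀ h k : K, ⟪SK h, k⟫_ℝ = ⟪h, SK k⟫_ℝ := fun h k => hsym h k
  obtain ⟨m, ψ, o, e, sp, fr⟩ := h2 K SK (ω ^ 2) hcK hsymK
  have hi : Function.Injective i := by
    intro x y hxy
    have h4 : ‖i (x - y)‖ = 0 := by rw [map_sub, hxy, sub_self, norm_zero]
    rw [hR.nrm, norm_eq_zero] at h4
    exact sub_eq_zero.1 h4
  -- from `K` to `X'`
  have up0 : ∀ (q : Lp ℝ 2 μ) (y : X) (c : ℝ), q ∈ K → q = W.e y + c • W.S q →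
      ∃ x' : X', W'.e x' = q := by
    intro q y c hq hqe
    obtain ⟨x, hx⟩ := hbts q y c hqe
    obtain ⟨x', hx'⟩ := hR.rng x (by rw [hx]; exact hq)
    exact ⟨x', by rw [← hR.e, hx', hx]⟩
  have lft : ∀ j, ∃ x' : X', W'.e x' = (ψ j : Lp ℝ 2 μ) := by
    intro j
    refine up0 (ψ j : Lp ℝ 2 μ) 0 (ω ^ 2) (ψ j).2 ?_
    have h5 := congrArg (fun v : K => (v : Lp ℝ 2 μ)) (e j)
    simp only [Submodule.coe_smul, hSKv] at h5
    rw [map_zero, zero_add, h5]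
  choose φ hφ using lft
  have hφ' : (fun j => W'.e (φ j)) = fun j => (ψ j : Lp ℝ 2 μ) := funext hφ
  refine ⟨m, φ, ⟨?_, fun j => W'.e_inj ?_⟩, ?_, ?_⟩
  · rw [hφ']
    exact o.comp_linearIsometry K.subtypeₗᵢ
  · have h5 := congrArg (fun v : K => (v : Lp ℝ 2 μ)) (e j)
    simp only [Submodule.coe_smul, hSKv] at h5
    rw [map_smul, W'.e_SX, hφ j, hR.S, h5]
  · intro u huK hu
    rw [hφ']
    have h6 : (⟨u, huK⟩ : K) ∈ Submodule.span ℝ (Set.range ψ) := by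
      refine sp ⟨u, huK⟩ (Subtype.ext ?_)
      rw [Submodule.coe_smul, hSKv]
      exact hu
    have h7 : (K.subtype : K →ₗ[ℝ] Lp ℝ 2 μ) ⟨u, huK⟩ ∈
        (Submodule.span ℝ (Set.range ψ)).map K.subtype := Submodule.mem_map_of_mem h6
    rw [Submodule.map_span, ← Set.range_comp] at h7
    exact h7
  -- from `K` to `X'`
  have up : ∀ (c : ℝ) (F : X') (q : K), q - c • SK q = ⟨W'.e F, hR.mem F⟩ →
      ∃ x : X', x - c • W'.SX x = F := by
    intro c F q hq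
    have h5 : (q : Lp ℝ 2 μ) - c • W.S q = W'.e F := by
      have h6 := congrArg (fun v : K => (v : Lp ℝ 2 μ)) hq
      simpa [hSKv] using h6
    obtain ⟨x, hx⟩ := up0 q (i F) c q.2 (by rw [hR.e, ← h5]; exact (sub_add_cancel _ _).symm)
    refine ⟨x, W'.e_inj ?_⟩
    rw [map_sub, map_smul, W'.e_SX, hx, hR.S, h5]
  intro M hM
  refine ⟨fun F hF => ?_, fun n hn h3n hnM F => ?_⟩
  · obtain ⟨q, hq⟩ := fr ⟨W'.e F, hR.mem F⟩ (fun j => by
      have h8 := hF j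
      rw [hφ j] at h8
      exact h8)
    exact up _ F q hq
  · obtain ⟨q, hq⟩ := (h3 K SK ((n : ℝ) ^ 2 * ω ^ 2) hcK hsymK).1 (fun u hu => by
      refine Subtype.ext (hM n hn h3n hnM u u.2 ?_)
      have h9 := congrArg (fun v : K => (v : Lp ℝ 2 μ)) hu
      simp only [Submodule.coe_smul, hSKv] at h9
      exact h9) ⟨W'.e F, hR.mem F⟩
    exact up _ F q hq

end Pool.Agent.BEG.H19
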